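import Pool.Agent.H28.GN.T3

/-!
# The positions of an active box are distinct (row POI of thg_modules)
-/

set_option autoImplicit false

namespace Pool.Agent.H67.GN

open Pool.Agent.H28.GN

theorem pf_POI : T_POI := by
  intro J c b H t p q h
  obtain ⟨ω, a⟩ := p
  obtain ⟨ω', a'⟩ := q
  have h1 : (a : ℕ) + ps c (tn t) ω = (a' : ℕ) + ps c (tn t) ω' := congrArg Fin.val h
  by_cases hw : ω = ω'
  · subst hw
    have h2 : a = a' := Fin.ext (by omega)
    rw [h2]
  · exfalso
    have h2 : b ≤ dif (ps c (tn t) ω) (ps c (tn t) ω') := t.2 ω ω' hw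
    have h3 := a.2
    have h4 := a'.2
    unfold dif at h2
    omega

end Pool.Agent.H67.GN
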